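import Pool.Agent.H58.BarnesBaire

set_option autoImplicit false

namespace Pool.Agent.Results.MP_047497_nt.Disproof

open Filter Asymptotics

/-- The moment bound fails: there are `r`, `a`, `w`, the continuation `F` of the Barnes multiple
zeta function, `k ≥ 1`, `ε > 0` and `σ ≥ r - d/2` such that the `2k`-th moment over `[1, T]`
is not `O(T^(1+ε))`. -/
theorem result :
    ∃ (r : ℕ) (a : ℝ) (w : Fin r → ℝ) (F : ℂ → ℂ) (k : ℕ) (ε σ : ℝ),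
      1 ≤ r ∧ 0 < a ∧ (∀ j, 0 < w j) ∧
      DifferentiableOn ℂ F {s : ℂ | ∀ i : ℕ, 1 ≤ i → i ≤ r → s ≠ (i : ℂ)} ∧
      (∀ s : ℂ, (r : ℝ) < s.re →
        F s = ∑' m : Fin r → ℕ, (((a + ∑ j, (m j : ℝ) * w j : ℝ) : ℂ) ^ (-s))) ∧
      1 ≤ k ∧ 0 < ε ∧
      (r : ℝ) - (Module.finrank ℚ (Submodule.span ℚ (Set.range w)) : ℝ) / 2 ≤ σ ∧
      (∀ T : ℝ, 1 ≤ T → IntervalIntegrable
        (fun t : ℝ => ‖F ((σ : ℂ) + (t : ℂ) * Complex.I)‖ ^ (2 * k)) MeasureTheory.volume 1 T) ∧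
      ¬ ((fun T : ℝ => ∫ t in (1 : ℝ)..T, ‖F ((σ : ℂ) + (t : ℂ) * Complex.I)‖ ^ (2 * k))
          =O[atTop] fun T : ℝ => T ^ (1 + ε)) := by
  obtain ⟨w, hw, hd, F, hF, hZ, hc, hbad⟩ := Pool.Agent.H58.Barnes.exists_bad'
  have hint : ∀ A B : ℝ, 0 < A → A ≤ B → ∀ e : ℕ, IntervalIntegrable
      (fun t : ℝ => ‖F (((1 : ℝ) : ℂ) + (t : ℂ) * Complex.I)‖ ^ e) MeasureTheory.volume A B := by
    intro A B hA hAB e
    refine ((hc.mono ?_).norm.pow e).intervalIntegrable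
    intro t ht
    rw [Set.uIcc_of_le hAB] at ht
    exact lt_of_lt_of_le hA ht.1
  refine ⟨2, 1, w, F, 1, 1 / 2, 1, by norm_num, one_pos, hw, hF, hZ, le_rfl, by norm_num,
    by rw [hd]; norm_num, fun T hT => hint 1 T one_pos hT _, fun h => ?_⟩
  obtain ⟨C, hC0, hC⟩ := h.exists_pos
  obtain ⟨T₀, hT₀⟩ := eventually_atTop.mp hC.bound
  obtain ⟨j, hj⟩ := exists_nat_ge (max T₀ (8 * C + 1))
  obtain ⟨n, hjn, hn4, hlt⟩ := hbad j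
  have hn : (4 : ℝ) ≤ n := by exact_mod_cast hn4
  have hjn' : (j : ℝ) ≤ n := by exact_mod_cast hjn
  have hj1 : T₀ ≤ j := (le_max_left _ _).trans hj
  have hj2 : 8 * C + 1 ≤ j := (le_max_right _ _).trans hj
  have hM1 : (1 : ℝ) ≤ (n : ℝ) ^ 8 := one_le_pow₀ (by linarith)
  have hM2 : (n : ℝ) ≤ (n : ℝ) ^ 8 := le_self_pow₀ (by linarith) (by norm_num)
  have hle : (n : ℝ) ^ 8 ≤ 2 * (n : ℝ) ^ 8 := by linarith
  have h1 := hT₀ (2 * (n : ℝ) ^ 8) (by linarith)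
  have h2 : ‖(2 * (n : ℝ) ^ 8) ^ (1 + 1 / 2 : ℝ)‖ ≤ 8 * (n : ℝ) ^ 12 := by
    rw [Real.norm_of_nonneg (Real.rpow_nonneg (by linarith) _)]
    calc (2 * (n : ℝ) ^ 8) ^ (1 + 1 / 2 : ℝ) ≤ ((2 * (n : ℝ) ^ 4) ^ 2) ^ (1 + 1 / 2 : ℝ) :=
          Real.rpow_le_rpow (by linarith) (by nlinarith) (by norm_num)
      _ = (2 * (n : ℝ) ^ 4) ^ (3 : ℕ) := by
          rw [← Real.rpow_natCast, ← Real.rpow_mul (by positivity), ← Real.rpow_natCast]; norm_num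
      _ = _ := by ring
  have h3 := intervalIntegral.integral_add_adjacent_intervals (hint 1 _ one_pos hM1 (2 * 1))
    (hint _ _ (by linarith) hle (2 * 1))
  have h4 : 0 ≤ ∫ t in (1 : ℝ)..((n : ℝ) ^ 8), ‖F (((1 : ℝ) : ℂ) + (t : ℂ) * Complex.I)‖ ^ (2 * 1) :=
    intervalIntegral.integral_nonneg hM1 (fun t _ => by positivity)
  have hi1 := hint _ _ (by linarith) hle 1
  simp only [pow_one] at hi1
  have h5 : ∫ t in ((n : ℝ) ^ 8)..(2 * (n : ℝ) ^ 8),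
      (2 * (j * (n : ℝ) ^ 3) * ‖F (((1 : ℝ) : ℂ) + (t : ℂ) * Complex.I)‖ - (j * (n : ℝ) ^ 3) ^ 2) ≤
      ∫ t in ((n : ℝ) ^ 8)..(2 * (n : ℝ) ^ 8), ‖F (((1 : ℝ) : ℂ) + (t : ℂ) * Complex.I)‖ ^ (2 * 1) := by
    apply intervalIntegral.integral_mono_on hle ((hi1.const_mul _).sub (by simp))
      (hint _ _ (by linarith) hle (2 * 1))
    intro t _
    show 2 * (j * (n : ℝ) ^ 3) * ‖F (((1 : ℝ) : ℂ) + (t : ℂ) * Complex.I)‖ - (j * (n : ℝ) ^ 3) ^ 2 ≤ _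
    generalize ‖F (((1 : ℝ) : ℂ) + (t : ℂ) * Complex.I)‖ = x
    generalize (j : ℝ) * (n : ℝ) ^ 3 = y
    rw [mul_one]
    nlinarith [sq_nonneg (x - y)]
  rw [intervalIntegral.integral_sub (hi1.const_mul _) (by simp), intervalIntegral.integral_const_mul] at h5
  simp only [intervalIntegral.integral_const, smul_eq_mul] at h5
  have hjpos : (1 : ℝ) ≤ j := by linarith
  have h6 := mul_lt_mul_of_pos_left hlt (show 0 < 2 * (j * (n : ℝ) ^ 3) by positivity)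
  have h7 : C * ‖(2 * (n : ℝ) ^ 8) ^ (1 + 1 / 2 : ℝ)‖ ≤ C * (8 * (n : ℝ) ^ 12) := by gcongr
  have h8 := (le_abs_self _).trans h1
  have h9 : C * (8 * (n : ℝ) ^ 12) ≤ (j : ℝ) ^ 2 * n ^ 14 := by
    have b1 : (n : ℝ) ^ 12 ≤ n ^ 14 := pow_le_pow_right₀ (by linarith) (by norm_num)
    have b2 : 8 * C ≤ (j : ℝ) ^ 2 := by nlinarith
    calc C * (8 * (n : ℝ) ^ 12) = (8 * C) * n ^ 12 := by ring
      _ ≤ _ := by gcongr
  have h10 : 2 * (j * (n : ℝ) ^ 3) * (j * n ^ 11) - (2 * (n : ℝ) ^ 8 - n ^ 8) * (j * (n : ℝ) ^ 3) ^ 2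
      = (j : ℝ) ^ 2 * n ^ 14 := by ring
  linarith

end Pool.Agent.Results.MP_047497_nt.Disproof
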